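import Pool.Agent.SGL.StmtsA

/-!
# Squad SGL (MP_41797f_co), row RCA (helper61): all neighbours of a vertex `w` with `Q w q` are reached
-/

set_option autoImplicit false

namespace Pool.Agent.SGL.H61

open Pool.Agent.SGE Pool.Agent.SGP Pool.Agent.SGY Pool.Agent.SGD

/-- a property which is passed on along a chain -/
theorem fwd {V : Type} {F : V → V → Prop} {P : V → Prop} {z : V}
    (step : ∀ s t, P s → F s t → t ≠ z → P t) :
    ∀ (L : List V) (x : V), P x → (x :: L).IsChain F → (∀ y ∈ L, y ≠ z) → ∀ y ∈ L, P y := by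
  intro L
  induction L with
  | nil => intro x _ _ _ y hy; simp at hy
  | cons b L ih =>
    intro x hx hc hz y hy
    rw [List.isChain_cons_cons] at hc
    have hb : P b := step x b hx hc.1 (hz b (by simp))
    rcases List.mem_cons.1 hy with rfl | hy'
    · exact hb
    · exact ih b hb hc.2 (fun y hy => hz y (List.mem_cons_of_mem _ hy)) y hy'

/-- a property which is passed on backwards along a chain -/
theorem bwd {V : Type} {F : V → V → Prop} {P : V → Prop} {z x : V} (hx : P x)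
    (step : ∀ s t, P t → F s t → s ≠ z → P s) :
    ∀ (L : List V), (L ++ [x]).IsChain F → (∀ y ∈ L, y ≠ z) → ∀ y ∈ L ++ [x], P y := by
  intro L
  induction L with
  | nil =>
    intro _ _ y hy
    simp at hy
    rw [hy]; exact hx
  | cons b L ih =>
    intro hc hz y hy
    have hc' : (b :: (L ++ [x])).IsChain F := by simpa using hc
    rw [List.isChain_cons] at hc'
    have ih' := ih hc'.2 (fun y hy => hz y (List.mem_cons_of_mem _ hy))
    have hb : P b := by
      cases L with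
      | nil =>
        exact step b x hx (hc'.1 x (by simp)) (hz b (by simp))
      | cons c L' =>
        exact step b c (ih' c (by simp)) (hc'.1 c (by simp)) (hz b (by simp))
    have hy' : y = b ∨ y ∈ L ++ [x] := by simpa using hy
    rcases hy' with rfl | hy'
    · exact hb
    · exact ih' y hy'

/-- **RCA** -/
theorem rca : RcaStmt := by
  intro V _ E Φ a z Q h hQ w q t hq ht
  have hnf := (hQ.nf w q hq).1
  -- the members of the set
  have inY1 : ∀ t, Q w t → t ∈ Yz E Φ z Q := by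
    intro t ht
    have h1 := (hQ.nf w t ht).1
    refine ⟨?_, Or.inl ⟨w, hQ.sym _ _ ht⟩⟩
    intro e
    rw [e] at h1
    exact h.irr _ h1.2.1
  have inY2 : ∀ s t, Q w s → ¬ NF E Φ w t z → Φ w s t → t ∈ Yz E Φ z Q := by
    intro s t hs hn hf
    have h1 := hQ.st w s t hs (Or.inl hf)
    refine ⟨?_, ?_⟩
    · intro e
      rw [e] at h1
      exact h.irr _ h1.1
    · by_cases hn2 : NF E Φ s t z
      · exact Or.inl ⟨s, hQ.sym _ _ (h1.2.2.2 hn2)⟩
      · exact Or.inr ⟨w, s, hs, hf, hn, hn2⟩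
  have inY3 : ∀ s t, Q w s → ¬ NF E Φ w t z → Φ w t s → t ∈ Yz E Φ z Q := by
    intro s t hs hn hf
    have hf' : Φ s w t := h.rot _ _ _ (h.rot _ _ _ hf)
    have h1 := hQ.st w s t hs (Or.inr hf')
    refine ⟨?_, ?_⟩
    · intro e
      rw [e] at h1
      exact h.irr _ h1.1
    · by_cases hn2 : NF E Φ s t z
      · exact Or.inl ⟨s, hQ.sym _ _ (h1.2.2.2 hn2)⟩
      · exact Or.inr ⟨s, w, hQ.sym _ _ hs, hf', hn2, hn⟩
  -- a triangle which is not `NF`
  have tri : ∀ t, E w t → E z t → ¬ NF E Φ w t z → Φ w t z ∨ Φ t w z := by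
    intro t h1 h2 hn
    by_contra hc
    rw [not_or] at hc
    exact hn ⟨h1, h.sym _ _ h2, hnf.2.2.1, hc.1, hc.2⟩
  -- forward
  have hfwd : ∀ s t, (Q w s ∨ (¬ NF E Φ w s z ∧ ∃ r, Q w r ∧ Φ w r s)) → Φ w s t → t ≠ z →
      (Q w t ∨ (¬ NF E Φ w t z ∧ ∃ r, Q w r ∧ Φ w r t)) := by
    intro s t hs hf htz
    rcases hs with hs | ⟨hn, r, hr, hrs⟩
    · have h1 := hQ.st w s t hs (Or.inl hf)
      by_cases hn : NF E Φ w t z
      · exact Or.inl (h1.2.2.1 hn)
      · exact Or.inr ⟨hn, s, hs, hf⟩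
    · exfalso
      have h1 := hQ.st w r s hr (Or.inl hrs)
      have h2 : Φ s w r := h.rot _ _ _ (h.rot _ _ _ hrs)
      have h3 := (hQ.nf w r hr).1
      rcases tri s (h.fe _ _ _ hf) h1.1 hn with h4 | h4
      · exact htz (h.fn _ _ _ _ hf h4)
      · have e := h.fn _ _ _ _ h2 h4
        rw [e] at h3
        exact h.irr _ h3.2.1
  -- backward
  have hbwd : ∀ s t, (Q w t ∨ (¬ NF E Φ w t z ∧ ∃ r, Q w r ∧ Φ w t r)) → Φ w s t → s ≠ z →
      (Q w s ∨ (¬ NF E Φ w s z ∧ ∃ r, Q w r ∧ Φ w s r)) := by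
    intro s t hs hf hsz
    have hf' : Φ t w s := h.rot _ _ _ (h.rot _ _ _ hf)
    rcases hs with hs | ⟨hn, r, hr, hrs⟩
    · have h1 := hQ.st w t s hs (Or.inr hf')
      by_cases hn : NF E Φ w s z
      · exact Or.inl (h1.2.2.1 hn)
      · exact Or.inr ⟨hn, t, hs, hf⟩
    · exfalso
      have h2 : Φ r w t := h.rot _ _ _ (h.rot _ _ _ hrs)
      have h1 := hQ.st w r t hr (Or.inr h2)
      have h3 := (hQ.nf w r hr).1
      rcases tri t (h.fe _ _ _ hrs) h1.1 hn with h4 | h4
      · have e := h.fn _ _ _ _ hrs h4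
        rw [e] at h3
        exact h.irr _ h3.2.1
      · exact hsz (h.fn _ _ _ _ hf' h4)
  obtain ⟨l, hc, hnd, hmem⟩ := h.cyc w q hnf.1
  have hzl : z ∈ q :: l := (hmem z).1 (h.sym _ _ hnf.2.2.1)
  have hzq : z ≠ q := by
    intro e
    have := hnf.2.1
    rw [e] at this
    exact h.irr _ this
  have hzl' : z ∈ l := by
    rcases List.mem_cons.1 hzl with e | e
    · exact absurd e hzq
    · exact e
  obtain ⟨l₁, l₂, rfl⟩ := List.append_of_mem hzl'
  have hnd' : (l₁ ++ z :: l₂).Nodup := (List.nodup_cons.1 hnd).2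
  have hz1 : ∀ y ∈ l₁, y ≠ z := by
    intro y hy e
    rw [e] at hy
    exact (List.disjoint_of_nodup_append hnd') hy (by simp)
  have hz2 : ∀ y ∈ l₂, y ≠ z := by
    intro y hy e
    rw [e] at hy
    exact (List.nodup_cons.1 (List.nodup_append.1 hnd').2.1).1 hy
  have hc1 : ((q :: l₁) ++ (z :: (l₂ ++ [q]))).IsChain (Φ w) := by simpa using hc
  have hcl : (q :: l₁).IsChain (Φ w) := hc1.left_of_append
  have hcr : (l₂ ++ [q]).IsChain (Φ w) := by
    have h1 : (z :: (l₂ ++ [q])).IsChain (Φ w) := hc1.right_of_append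
    rw [List.isChain_cons] at h1
    exact h1.2
  have htl : t ∈ q :: (l₁ ++ z :: l₂) := (hmem t).1 ht
  have htl' : t = q ∨ t ∈ l₁ ∨ t = z ∨ t ∈ l₂ := by simpa using htl
  rcases htl' with rfl | ht1 | rfl | ht2
  · exact Or.inr (inY1 _ hq)
  · right
    rcases fwd hfwd l₁ q (Or.inl hq) hcl hz1 t ht1 with h1 | ⟨hn, s, hs, hst⟩
    · exact inY1 _ h1
    · exact inY2 s t hs hn hst
  · exact Or.inl rfl
  · right
    rcases bwd (x := q) (Or.inl hq) hbwd l₂ hcr hz2 t (by simp [ht2]) with h1 | ⟨hn, s, hs, hst⟩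
    · exact inY1 _ h1
    · exact inY3 s t hs hn hst

end Pool.Agent.SGL.H61
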